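import Pool.Agent.MP_d43ba4_co.Induct

/-! The linear Turán number of the linear path with four edges: for `r ≥ 3` every linear
`r`-uniform hypergraph on `n` vertices without `P₄^r` has at most `(r+1) n / r` edges, and
equality holds exactly for the vertex-disjoint unions of Steiner systems `S(2, r, r²)`. -/

namespace Pool.Agent.Results.MP_d43ba4_co.LinearP4

open Pool.Agent.MP_d43ba4_co

/-- The vertices of `P₄^r`: the five vertices of the path `P₄` and, for each of its four edges,
`r - 2` new vertices. -/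
abbrev PVert (r : ℕ) : Type := Fin 5 ⊕ (Fin 4 × Fin (r - 2))

/-- The `i`-th edge of `P₄^r`: the path vertices `i`, `i + 1` and the `r - 2` new vertices of the
`i`-th edge. -/
def PEdge (r : ℕ) (i : Fin 4) : Finset (PVert r) :=
  {Sum.inl i.castSucc, Sum.inl i.succ} ∪ Finset.univ.image (fun j : Fin (r - 2) => Sum.inr (i, j))

/-- The hypergraph with edge set `E` contains a (not necessarily induced) copy of `P₄^r`. -/
def ContainsP4 {V : Type*} (r : ℕ) (E : Finset (Finset V)) : Prop :=
  ∃ φ : PVert r ↪ V, ∀ i : Fin 4, (PEdge r i).map φ ∈ E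

/-- Every edge has exactly `r` vertices. -/
def IsUniform {V : Type*} (r : ℕ) (E : Finset (Finset V)) : Prop := ∀ e ∈ E, e.card = r

/-- Any two distinct edges share at most one vertex. -/
def IsLinear {V : Type*} [DecidableEq V] (E : Finset (Finset V)) : Prop :=
  ∀ e ∈ E, ∀ f ∈ E, e ≠ f → (e ∩ f).card ≤ 1

/-- `P` is a partition of the vertex set into blocks of size `r²`, every edge lies in a block, and
inside each block every pair of distinct vertices lies in exactly one edge contained in it. -/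
def IsSteinerPartition {V : Type*} (r : ℕ) (E P : Finset (Finset V)) : Prop :=
  (∀ x : V, ∃! B, B ∈ P ∧ x ∈ B) ∧ (∀ B ∈ P, B.card = r ^ 2) ∧ (∀ e ∈ E, ∃ B ∈ P, e ⊆ B) ∧
    ∀ B ∈ P, ∀ x ∈ B, ∀ y ∈ B, x ≠ y → ∃! e, e ∈ E ∧ e ⊆ B ∧ x ∈ e ∧ y ∈ e

/-- The linear Turán number `ex_r^lin(n, P₄^r)`. -/
noncomputable def exLin (r n : ℕ) : ℕ :=
  sSup {m : ℕ | ∃ E : Finset (Finset (Fin n)), IsUniform r E ∧ IsLinear E ∧ ¬ ContainsP4 r E ∧
    E.card = m}

variable {V : Type*} [DecidableEq V]

/-- four edges forming an induced path in the intersection graph form a copy of `P₄^r` -/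
lemma contains_of_pattern {r : ℕ} (hr : 2 ≤ r) {E : Finset (Finset V)} (hu : IsUniform r E)
    (hl : IsLinear E) {a b c d : Finset V} (ha : a ∈ E) (hb : b ∈ E) (hc : c ∈ E) (hd : d ∈ E)
    (hab : ¬ Disjoint a b) (hbc : ¬ Disjoint b c) (hcd : ¬ Disjoint c d) (hac : Disjoint a c)
    (had : Disjoint a d) (hbd : Disjoint b d) : ContainsP4 r E := by
  classical
  have nab : a ≠ b := by rintro rfl; exact hbc hac
  have nbc : b ≠ c := by rintro rfl; exact hcd hbd
  have ncd : c ≠ d := by rintro rfl; exact hbc hbd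
  obtain ⟨v1, hv1a, hv1b⟩ := Finset.not_disjoint_iff.1 hab
  obtain ⟨v2, hv2b, hv2c⟩ := Finset.not_disjoint_iff.1 hbc
  obtain ⟨v3, hv3c, hv3d⟩ := Finset.not_disjoint_iff.1 hcd
  have n12 : v1 ≠ v2 := by rintro rfl; exact Finset.disjoint_left.1 hac hv1a hv2c
  have n23 : v2 ≠ v3 := by rintro rfl; exact Finset.disjoint_left.1 hbd hv2b hv3d
  obtain ⟨v0, hv0⟩ : (a.erase v1).Nonempty := by
    rw [← Finset.card_pos, Finset.card_erase_of_mem hv1a, hu a ha]; omega
  obtain ⟨v4, hv4⟩ : (d.erase v3).Nonempty := by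
    rw [← Finset.card_pos, Finset.card_erase_of_mem hv3d, hu d hd]; omega
  rw [Finset.mem_erase] at hv0 hv4
  -- edges and path vertices as functions
  obtain ⟨e, he0, he1, he2, he3⟩ : ∃ e : Fin 4 → Finset V, e 0 = a ∧ e 1 = b ∧ e 2 = c ∧ e 3 = d :=
    ⟨![a, b, c, d], rfl, rfl, rfl, rfl⟩
  obtain ⟨p, hp0, hp1, hp2, hp3, hp4⟩ : ∃ p : Fin 5 → V, p 0 = v0 ∧ p 1 = v1 ∧ p 2 = v2 ∧
      p 3 = v3 ∧ p 4 = v4 := ⟨![v0, v1, v2, v3, v4], rfl, rfl, rfl, rfl, rfl⟩
  have heE : ∀ i, e i ∈ E := by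
    intro i; fin_cases i
    · exact he0 ▸ ha
    · exact he1 ▸ hb
    · exact he2 ▸ hc
    · exact he3 ▸ hd
  have hpc : ∀ i : Fin 4, p i.castSucc ∈ e i := by
    intro i; fin_cases i
    · change p 0 ∈ e 0; rw [hp0, he0]; exact hv0.2
    · change p 1 ∈ e 1; rw [hp1, he1]; exact hv1b
    · change p 2 ∈ e 2; rw [hp2, he2]; exact hv2c
    · change p 3 ∈ e 3; rw [hp3, he3]; exact hv3d
  have hps : ∀ i : Fin 4, p i.succ ∈ e i := by
    intro i; fin_cases i
    · change p 1 ∈ e 0; rw [hp1, he0]; exact hv1a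
    · change p 2 ∈ e 1; rw [hp2, he1]; exact hv2b
    · change p 3 ∈ e 2; rw [hp3, he2]; exact hv3c
    · change p 4 ∈ e 3; rw [hp4, he3]; exact hv4.2
  have hpne : ∀ i : Fin 4, p i.castSucc ≠ p i.succ := by
    intro i; fin_cases i
    · change p 0 ≠ p 1; rw [hp0, hp1]; exact hv0.1
    · change p 1 ≠ p 2; rw [hp1, hp2]; exact n12
    · change p 2 ≠ p 3; rw [hp2, hp3]; exact n23
    · change p 3 ≠ p 4; rw [hp3, hp4]; exact hv4.1.symm
  have hX : ∀ i : Fin 4, (e i \ {p i.castSucc, p i.succ}).card = r - 2 := by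
    intro i
    rw [Finset.card_sdiff_of_subset, Finset.card_pair (hpne i), hu _ (heE i)]
    intro x hx
    rw [Finset.mem_insert, Finset.mem_singleton] at hx
    rcases hx with rfl | rfl
    · exact hpc i
    · exact hps i
  let g : ∀ i : Fin 4, (e i \ {p i.castSucc, p i.succ} : Finset V) ≃ Fin (r - 2) :=
    fun i => Finset.equivFinOfCardEq (hX i)
  let f : PVert r → V := Sum.elim p (fun ij => (((g ij.1).symm ij.2 : _) : V))
  have himg : ∀ i, (PEdge r i).image f = e i := by
    intro i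
    ext x
    simp only [PEdge, Finset.mem_image, Finset.mem_union, Finset.mem_insert, Finset.mem_singleton,
      Finset.mem_univ, true_and]
    constructor
    · rintro ⟨y, (rfl | rfl) | ⟨j, rfl⟩, rfl⟩
      · exact hpc i
      · exact hps i
      · have := ((g i).symm j).2
        exact (Finset.mem_sdiff.1 this).1
    · intro hx
      by_cases h1 : x = p i.castSucc
      · exact ⟨_, Or.inl (Or.inl rfl), h1.symm⟩
      by_cases h2 : x = p i.succ
      · exact ⟨_, Or.inl (Or.inr rfl), h2.symm⟩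
      have hxX : x ∈ e i \ {p i.castSucc, p i.succ} := by
        rw [Finset.mem_sdiff, Finset.mem_insert, Finset.mem_singleton]
        exact ⟨hx, fun h => h.elim h1 h2⟩
      refine ⟨Sum.inr (i, g i ⟨x, hxX⟩), Or.inr ⟨_, rfl⟩, ?_⟩
      change (((g i).symm (g i ⟨x, hxX⟩) : _) : V) = x
      rw [Equiv.symm_apply_apply]
  -- counting
  have c1 : (a ∩ b).card = 1 := by
    apply le_antisymm (hl a ha b hb nab)
    exact Finset.card_pos.2 ⟨v1, Finset.mem_inter.2 ⟨hv1a, hv1b⟩⟩
  have c2 : ((a ∪ b) ∩ c).card = 1 := by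
    have : (a ∪ b) ∩ c = b ∩ c := by
      ext x
      simp only [Finset.mem_inter, Finset.mem_union]
      constructor
      · rintro ⟨h | h, h'⟩
        · exact absurd h' (Finset.disjoint_left.1 hac h)
        · exact ⟨h, h'⟩
      · rintro ⟨h, h'⟩; exact ⟨Or.inr h, h'⟩
    rw [this]
    apply le_antisymm (hl b hb c hc nbc)
    exact Finset.card_pos.2 ⟨v2, Finset.mem_inter.2 ⟨hv2b, hv2c⟩⟩
  have c3 : ((a ∪ b ∪ c) ∩ d).card = 1 := by
    have : (a ∪ b ∪ c) ∩ d = c ∩ d := by
      ext x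
      simp only [Finset.mem_inter, Finset.mem_union]
      constructor
      · rintro ⟨(h | h) | h, h'⟩
        · exact absurd h' (Finset.disjoint_left.1 had h)
        · exact absurd h' (Finset.disjoint_left.1 hbd h)
        · exact ⟨h, h'⟩
      · rintro ⟨h, h'⟩; exact ⟨Or.inr h, h'⟩
    rw [this]
    apply le_antisymm (hl c hc d hd ncd)
    exact Finset.card_pos.2 ⟨v3, Finset.mem_inter.2 ⟨hv3c, hv3d⟩⟩
  have d1 := Finset.card_union_add_card_inter a b
  have d2 := Finset.card_union_add_card_inter (a ∪ b) c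
  have d3 := Finset.card_union_add_card_inter (a ∪ b ∪ c) d
  rw [c1, hu a ha, hu b hb] at d1
  rw [c2, hu c hc] at d2
  rw [c3, hu d hd] at d3
  have hsub : a ∪ b ∪ c ∪ d ⊆ Finset.univ.image f := by
    have hi : ∀ i, e i ⊆ Finset.univ.image f := by
      intro i
      rw [← himg i]
      exact Finset.image_subset_image (Finset.subset_univ _)
    have h0 := hi 0
    have h1 := hi 1
    have h2 := hi 2
    have h3 := hi 3
    rw [he0] at h0
    rw [he1] at h1
    rw [he2] at h2
    rw [he3] at h3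
    exact Finset.union_subset (Finset.union_subset (Finset.union_subset h0 h1) h2) h3
  have hcle := Finset.card_le_card hsub
  have hcP : Fintype.card (PVert r) = 5 + 4 * (r - 2) := by simp [PVert]
  have hinj : Function.Injective f := by
    have h1 : (Finset.univ.image f).card = (Finset.univ : Finset (PVert r)).card := by
      apply le_antisymm Finset.card_image_le
      rw [Finset.card_univ, hcP]
      omega
    have h2 := Finset.card_image_iff.1 h1
    intro x y hxy
    exact h2 (Finset.mem_coe.2 (Finset.mem_univ x)) (Finset.mem_coe.2 (Finset.mem_univ y)) hxy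
  refine ⟨⟨f, hinj⟩, fun i => ?_⟩
  rw [Finset.map_eq_image]
  change (PEdge r i).image f ∈ E
  rw [himg i]
  exact heE i

lemma hyp_of {r : ℕ} (hr : 2 ≤ r) {E : Finset (Finset V)} (hu : IsUniform r E)
    (hl : IsLinear E) (hf : ¬ ContainsP4 r E) : Hyp r E := by
  refine ⟨hu, hl, ?_⟩
  intro a ha b hb c hc d hd _ _ _ _ _ _ ⟨h1, h2, h3, h4, h5, h6⟩
  exact hf (contains_of_pattern hr hu hl ha hb hc hd h1 h2 h3 (not_not.1 h4) (not_not.1 h5)
    (not_not.1 h6))

lemma bound {r : ℕ} (hr : 2 ≤ r) [Fintype V] {E : Finset (Finset V)} (hu : IsUniform r E)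
    (hl : IsLinear E) (hf : ¬ ContainsP4 r E) : r * E.card ≤ (r + 1) * Fintype.card V := by
  have h1 := (induct hr E (hyp_of hr hu hl hf)).1
  have h2 : (U E).card ≤ Fintype.card V := Finset.card_le_univ _
  exact h1.trans (Nat.mul_le_mul_left _ h2)

lemma steiner_of_eq {r : ℕ} (hr : 2 ≤ r) [Fintype V] {E : Finset (Finset V)} (hu : IsUniform r E)
    (hl : IsLinear E) (hf : ¬ ContainsP4 r E) (heq : r * E.card = (r + 1) * Fintype.card V) :
    ∃ P, IsSteinerPartition r E P := by
  have hyp := hyp_of hr hu hl hf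
  have h1 := induct hr E hyp
  have h2 : (U E).card ≤ Fintype.card V := Finset.card_le_univ _
  have h3 : (U E).card = Fintype.card V := by
    apply le_antisymm h2
    have h4 := h1.1
    rw [heq] at h4
    exact Nat.le_of_mul_le_mul_left h4 (by omega)
  have h4 : U E = Finset.univ := Finset.card_eq_iff_eq_univ _ |>.1 h3
  obtain ⟨P, hP⟩ := h1.2 (by rw [heq, h3])
  refine ⟨P, ?_, hP.card, hP.edge, ?_⟩
  · intro x
    have hx : x ∈ U P := by rw [hP.cover, h4]; exact Finset.mem_univ _
    obtain ⟨B, hB, hxB⟩ := mem_U.1 hx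
    refine ⟨B, ⟨hB, hxB⟩, ?_⟩
    rintro C ⟨hC, hxC⟩
    by_contra hne
    exact Finset.disjoint_left.1 (hP.disj C hC B hB hne) hxC hxB
  · intro B hB x hx y hy hxy
    obtain ⟨e, he, heB, hxe, hye⟩ := hP.pair B hB x hx y hy hxy
    refine ⟨e, ⟨he, heB, hxe, hye⟩, ?_⟩
    rintro f ⟨hf1, _, hxf, hyf⟩
    exact (hyp.eq_of_mem he hf1 hxy hxe hye hxf hyf).symm

omit [DecidableEq V] in
/-- in a union of Steiner systems the edge through two points is unique -/
lemma IsSteinerPartition.eq_of_mem {r : ℕ} {E P : Finset (Finset V)}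
    (h : IsSteinerPartition r E P) {e f : Finset V} (he : e ∈ E) (hf : f ∈ E) {x y : V}
    (hxy : x ≠ y) (hxe : x ∈ e) (hye : y ∈ e) (hxf : x ∈ f) (hyf : y ∈ f) : e = f := by
  obtain ⟨h1, h2, h3, h4⟩ := h
  obtain ⟨B, hB, heB⟩ := h3 e he
  obtain ⟨C, hC, hfC⟩ := h3 f hf
  obtain rfl : B = C := (h1 x).unique ⟨hB, heB hxe⟩ ⟨hC, hfC hxf⟩
  exact (h4 B hB x (heB hxe) y (heB hye) hxy).unique ⟨he, heB, hxe, hye⟩ ⟨hf, hfC, hxf, hyf⟩

lemma IsSteinerPartition.deg_eq {r : ℕ} (hr : 2 ≤ r) {E P : Finset (Finset V)}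
    (hu : IsUniform r E) (h : IsSteinerPartition r E P) (x : V) : deg E x = r + 1 := by
  obtain ⟨h1, h2, h3, h4⟩ := id h
  obtain ⟨B, ⟨hB, hxB⟩, _⟩ := h1 x
  have hc : ((E.filter (fun e => x ∈ e)).biUnion (fun e => e.erase x)).card =
      (E.filter (fun e => x ∈ e)).card * (r - 1) := by
    rw [Finset.card_biUnion]
    · rw [Finset.sum_const_nat]
      intro e he
      rw [Finset.mem_filter] at he
      rw [Finset.card_erase_of_mem he.2, hu e he.1]
    · intro e he f hf hef
      rw [Finset.mem_coe, Finset.mem_filter] at he hf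
      change Disjoint (e.erase x) (f.erase x)
      rw [Finset.disjoint_left]
      intro z hz1 hz2
      rw [Finset.mem_erase] at hz1 hz2
      exact hef (h.eq_of_mem he.1 hf.1 hz1.1 hz1.2 he.2 hz2.2 hf.2)
  have hB' : (E.filter (fun e => x ∈ e)).biUnion (fun e => e.erase x) = B.erase x := by
    ext z
    simp only [Finset.mem_biUnion, Finset.mem_filter, Finset.mem_erase]
    constructor
    · rintro ⟨e, ⟨he, hxe⟩, hzx, hze⟩
      obtain ⟨C, hC, heC⟩ := h3 e he
      obtain rfl : C = B := (h1 x).unique ⟨hC, heC hxe⟩ ⟨hB, hxB⟩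
      exact ⟨hzx, heC hze⟩
    · rintro ⟨hzx, hzB⟩
      obtain ⟨e, ⟨he, _, hxe, hze⟩, _⟩ := h4 B hB x hxB z hzB (Ne.symm hzx)
      exact ⟨e, ⟨he, hxe⟩, hzx, hze⟩
  rw [hB', Finset.card_erase_of_mem hxB, h2 B hB] at hc
  obtain ⟨m, rfl⟩ : ∃ m, r = m + 1 := ⟨r - 1, by omega⟩
  rw [Nat.add_sub_cancel] at hc
  have h5 : (m + 1) ^ 2 - 1 = (m + 1 + 1) * m := by
    have : (m + 1) ^ 2 = (m + 1 + 1) * m + 1 := by ring
    omega
  rw [h5] at hc
  exact (Nat.eq_of_mul_eq_mul_right (by omega) hc).symm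

lemma eq_of_steiner {r : ℕ} (hr : 2 ≤ r) [Fintype V] {E P : Finset (Finset V)}
    (hu : IsUniform r E) (h : IsSteinerPartition r E P) :
    r * E.card = (r + 1) * Fintype.card V := by
  have h1 := sum_deg E Finset.univ (fun e _ => Finset.subset_univ e)
  rw [Finset.sum_const_nat (m := r + 1) fun x _ => h.deg_eq hr hu x,
    Finset.sum_const_nat (m := r) fun e he => hu e he, Finset.card_univ] at h1
  rw [mul_comm r, ← h1, mul_comm]

lemma linear_of_steiner {r : ℕ} {E P : Finset (Finset V)} (h : IsSteinerPartition r E P) :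
    IsLinear E := by
  intro e he f hf hne
  by_contra hcon
  push Not at hcon
  obtain ⟨x, hx, y, hy, hxy⟩ := Finset.one_lt_card.1 hcon
  rw [Finset.mem_inter] at hx hy
  exact hne (h.eq_of_mem he hf hxy hx.1 hy.1 hx.2 hy.2)

lemma free_of_steiner {r : ℕ} (hr : 2 ≤ r) {E P : Finset (Finset V)}
    (hu : IsUniform r E) (h : IsSteinerPartition r E P) : ¬ ContainsP4 r E := by
  rintro ⟨φ, hφ⟩
  obtain ⟨h1, h2, h3, h4⟩ := id h
  -- all four edges lie in one block
  have hm : ∀ (i : Fin 4) (z : PVert r), φ z ∈ (PEdge r i).map φ ↔ z ∈ PEdge r i := by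
    intro i z; exact Finset.mem_map' φ
  have m1 : (Sum.inl 1 : PVert r) ∈ PEdge r 0 := by simp [PEdge]
  have m1' : (Sum.inl 1 : PVert r) ∈ PEdge r 1 := by simp [PEdge]
  have m2 : (Sum.inl 2 : PVert r) ∈ PEdge r 1 := by
    simp only [PEdge, Finset.mem_union, Finset.mem_insert, Finset.mem_singleton]
    left; right; rfl
  have m2' : (Sum.inl 2 : PVert r) ∈ PEdge r 2 := by
    simp only [PEdge, Finset.mem_union, Finset.mem_insert, Finset.mem_singleton]
    left; left; rfl
  have m3 : (Sum.inl 3 : PVert r) ∈ PEdge r 2 := by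
    simp only [PEdge, Finset.mem_union, Finset.mem_insert, Finset.mem_singleton]
    left; right; rfl
  have m3' : (Sum.inl 3 : PVert r) ∈ PEdge r 3 := by
    simp only [PEdge, Finset.mem_union, Finset.mem_insert, Finset.mem_singleton]
    left; left; rfl
  have d02 : Disjoint (PEdge r 0) (PEdge r 2) := by
    rw [Finset.disjoint_left]
    intro z hz1 hz2
    simp only [PEdge, Finset.mem_union, Finset.mem_insert, Finset.mem_singleton, Finset.mem_image,
      Finset.mem_univ, true_and] at hz1 hz2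
    rcases hz1 with (rfl | rfl) | ⟨j, rfl⟩
    · rcases hz2 with (h | h) | ⟨j, h⟩
      · exact absurd (Sum.inl_injective h) (by decide)
      · exact absurd (Sum.inl_injective h) (by decide)
      · cases h
    · rcases hz2 with (h | h) | ⟨j, h⟩
      · exact absurd (Sum.inl_injective h) (by decide)
      · exact absurd (Sum.inl_injective h) (by decide)
      · cases h
    · rcases hz2 with (h | h) | ⟨j', h⟩
      · cases h
      · cases h
      · have h' : (2 : Fin 4) = 0 := congrArg Prod.fst (Sum.inr_injective h)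
        exact absurd h' (by decide)
  have d03 : Disjoint (PEdge r 0) (PEdge r 3) := by
    rw [Finset.disjoint_left]
    intro z hz1 hz2
    simp only [PEdge, Finset.mem_union, Finset.mem_insert, Finset.mem_singleton, Finset.mem_image,
      Finset.mem_univ, true_and] at hz1 hz2
    rcases hz1 with (rfl | rfl) | ⟨j, rfl⟩
    · rcases hz2 with (h | h) | ⟨j, h⟩
      · exact absurd (Sum.inl_injective h) (by decide)
      · exact absurd (Sum.inl_injective h) (by decide)
      · cases h
    · rcases hz2 with (h | h) | ⟨j, h⟩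
      · exact absurd (Sum.inl_injective h) (by decide)
      · exact absurd (Sum.inl_injective h) (by decide)
      · cases h
    · rcases hz2 with (h | h) | ⟨j', h⟩
      · cases h
      · cases h
      · have h' : (3 : Fin 4) = 0 := congrArg Prod.fst (Sum.inr_injective h)
        exact absurd h' (by decide)
  set a := (PEdge r 0).map φ with ha
  set b := (PEdge r 1).map φ with hb
  set c := (PEdge r 2).map φ with hc
  set d := (PEdge r 3).map φ with hd
  set v := φ (Sum.inl 3) with hv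
  have hac : Disjoint a c := (Finset.disjoint_map φ).2 d02
  have had : Disjoint a d := (Finset.disjoint_map φ).2 d03
  have hvc : v ∈ c := (hm 2 _).2 m3
  have hvd : v ∈ d := (hm 3 _).2 m3'
  have hva : v ∉ a := fun h => Finset.disjoint_left.1 hac h hvc
  have hcd : c ≠ d := by
    intro heq
    have h5 : (Sum.inl 2 : PVert r) ∈ PEdge r 3 := by
      rw [← hm 3, ← hd, ← heq]; exact (hm 2 _).2 m2'
    simp only [PEdge, Finset.mem_union, Finset.mem_insert, Finset.mem_singleton, Finset.mem_image,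
      Finset.mem_univ, true_and] at h5
    rcases h5 with (h | h) | ⟨j, h⟩
    · exact absurd (Sum.inl_injective h) (by decide)
    · exact absurd (Sum.inl_injective h) (by decide)
    · cases h
  have haE : a ∈ E := hφ 0
  have hbE : b ∈ E := hφ 1
  have hcE : c ∈ E := hφ 2
  have hdE : d ∈ E := hφ 3
  obtain ⟨B, hB, haB⟩ := h3 a haE
  obtain ⟨B1, hB1, hbB⟩ := h3 b hbE
  obtain ⟨B2, hB2, hcB⟩ := h3 c hcE
  have e1 : B = B1 := (h1 (φ (Sum.inl 1))).unique ⟨hB, haB ((hm 0 _).2 m1)⟩
    ⟨hB1, hbB ((hm 1 _).2 m1')⟩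
  subst e1
  have e2 : B = B2 := (h1 (φ (Sum.inl 2))).unique ⟨hB, hbB ((hm 1 _).2 m2)⟩
    ⟨hB2, hcB ((hm 2 _).2 m2')⟩
  subst e2
  have hvB : v ∈ B := hcB hvc
  -- count the edges through `v`
  have hdeg := h.deg_eq hr hu v
  have hchoose : ∀ x ∈ a, ∃ e ∈ E, v ∈ e ∧ x ∈ e := by
    intro x hx
    have hne : v ≠ x := by rintro h; exact hva (h ▸ hx)
    obtain ⟨e, ⟨he, _, h6, h7⟩, _⟩ := h4 B hB v hvB x (haB hx) hne
    exact ⟨e, he, h6, h7⟩
  choose! q hq1 hq2 hq3 using hchoose
  have hcard : (a.image q).card = r := by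
    rw [Finset.card_image_of_injOn, hu a haE]
    intro x hx y hy hxy
    by_contra hne
    have hx' := Finset.mem_coe.1 hx
    have hy' := Finset.mem_coe.1 hy
    have h8 : q x = a := h.eq_of_mem (hq1 x hx') haE hne (hq3 x hx') (hxy ▸ hq3 y hy') hx' hy'
    exact hva (h8 ▸ hq2 x hx')
  have hsub : insert c (insert d (a.image q)) ⊆ E.filter (fun e => v ∈ e) := by
    intro e he
    rw [Finset.mem_insert, Finset.mem_insert, Finset.mem_image] at he
    rw [Finset.mem_filter]
    rcases he with rfl | rfl | ⟨x, hx, rfl⟩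
    · exact ⟨hcE, hvc⟩
    · exact ⟨hdE, hvd⟩
    · exact ⟨hq1 x hx, hq2 x hx⟩
  have hnd : d ∉ a.image q := by
    intro h9
    obtain ⟨x, hx, hxd⟩ := Finset.mem_image.1 h9
    exact Finset.disjoint_left.1 had hx (hxd ▸ hq3 x hx)
  have hnc : c ∉ insert d (a.image q) := by
    intro h9
    rcases Finset.mem_insert.1 h9 with h9 | h9
    · exact hcd h9
    · obtain ⟨x, hx, hxd⟩ := Finset.mem_image.1 h9
      exact Finset.disjoint_left.1 hac hx (hxd ▸ hq3 x hx)
  have hfin := Finset.card_le_card hsub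
  rw [Finset.card_insert_of_notMem hnc, Finset.card_insert_of_notMem hnd, hcard] at hfin
  unfold deg at hdeg
  omega

/-- **Q1 answered in the affirmative.** For `r ≥ 3` and `n ≥ 1`,
`ex_r^lin(n, P₄^r) ≤ (r + 1) n / r`; and for every `r`-uniform hypergraph `E` on a finite vertex
set `V`: `E` is linear, `P₄^r`-free and has exactly `(r + 1) |V| / r` edges if and only if `V` has
a partition into blocks of size `r²` each spanning a copy of `S(2, r, r²)`, with no other edges. -/
theorem result (r : ℕ) (hr : 3 ≤ r) :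
    (∀ n : ℕ, 1 ≤ n → (exLin r n : ℝ) ≤ (r + 1) * n / r) ∧
      ∀ (V : Type*) [Fintype V] [DecidableEq V] (E : Finset (Finset V)), IsUniform r E →
        ((IsLinear E ∧ ¬ ContainsP4 r E ∧ (E.card : ℝ) = (r + 1) * Fintype.card V / r) ↔
          ∃ P : Finset (Finset V), IsSteinerPartition r E P) := by
  have hr0 : (0 : ℝ) < r := by exact_mod_cast (by omega : 0 < r)
  have key : ∀ a b : ℕ, (a : ℝ) = (r + 1) * b / r ↔ r * a = (r + 1) * b := by
    intro a b
    rw [eq_div_iff hr0.ne']
    constructor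
    · intro h
      have h' : ((r * a : ℕ) : ℝ) = (((r + 1) * b : ℕ) : ℝ) := by push_cast; linarith
      exact_mod_cast h'
    · intro h
      have h' : ((r * a : ℕ) : ℝ) = (((r + 1) * b : ℕ) : ℝ) := by rw [h]
      push_cast at h'
      linarith
  constructor
  · intro n _
    rw [le_div_iff₀ hr0]
    have hmem : exLin r n ∈ {m : ℕ | ∃ E : Finset (Finset (Fin n)), IsUniform r E ∧ IsLinear E ∧
        ¬ ContainsP4 r E ∧ E.card = m} := by
      apply Nat.sSup_mem
      · refine ⟨0, ∅, ?_, ?_, ?_, rfl⟩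
        · intro e he; simp at he
        · intro e he; simp at he
        · rintro ⟨φ, hφ⟩; simpa using hφ 0
      · refine ⟨(r + 1) * n, ?_⟩
        rintro m ⟨E, h1, h2, h3, rfl⟩
        have h4 := bound (by omega) h1 h2 h3
        rw [Fintype.card_fin] at h4
        nlinarith
    obtain ⟨E, h1, h2, h3, h4⟩ := hmem
    have h5 := bound (by omega) h1 h2 h3
    rw [Fintype.card_fin, h4] at h5
    have h6 : ((r * exLin r n : ℕ) : ℝ) ≤ (((r + 1) * n : ℕ) : ℝ) := by exact_mod_cast h5
    push_cast at h6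
    linarith
  · intro V _ _ E hu
    rw [key]
    constructor
    · rintro ⟨h1, h2, h3⟩
      exact steiner_of_eq (by omega) hu h1 h2 h3
    · rintro ⟨P, hP⟩
      exact ⟨linear_of_steiner hP, free_of_steiner (by omega) hu hP, eq_of_steiner (by omega) hu hP⟩

end Pool.Agent.Results.MP_d43ba4_co.LinearP4
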